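import Mathlib
import Pool.Agent.CPT.StmtsA

set_option autoImplicit false

/-! Squad CPT, row CNT: the number of the points with a small product. -/

namespace Pool.Agent.CPT.H97

open Pool.Agent.CPT

theorem sum_inv_sq (K : ℕ) :
    ∑ a ∈ Finset.range (K + 1), (1 : ℚ) / ((a : ℚ) + 1) ^ 2 ≤ 2 - 1 / ((K : ℚ) + 1) := by
  induction K with
  | zero => norm_num
  | succ K ih =>
    rw [Finset.sum_range_succ]
    have h1 : (1 : ℚ) / ((((K + 1 : ℕ) : ℚ)) + 1) ^ 2 ≤
        1 / ((K : ℚ) + 1) - 1 / ((((K + 1 : ℕ) : ℚ)) + 1) := by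
      push_cast
      have hK : (0 : ℚ) ≤ (K : ℚ) := Nat.cast_nonneg K
      have h2 : (1 : ℚ) / ((K : ℚ) + 1) - 1 / ((K : ℚ) + 1 + 1) =
          1 / (((K : ℚ) + 1) * ((K : ℚ) + 1 + 1)) := by
        field_simp
        ring
      rw [h2]
      apply one_div_le_one_div_of_le
      · positivity
      · nlinarith
    linarith

theorem sum_div (K : ℕ) :
    ∑ a ∈ Finset.range (K + 1), (K / max 1 a) ^ 2 ≤ 3 * K ^ 2 := by
  have h1 : ((∑ a ∈ Finset.range (K + 1), (K / max 1 a) ^ 2 : ℕ) : ℚ) ≤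
      ((3 * K ^ 2 : ℕ) : ℚ) := by
    push_cast
    rw [Finset.sum_range_succ']
    have h0 : ((K / max 1 0 : ℕ) : ℚ) ^ 2 = (K : ℚ) ^ 2 := by simp
    rw [h0]
    have h2 : ∑ a ∈ Finset.range K, ((K / max 1 (a + 1) : ℕ) : ℚ) ^ 2 ≤
        ∑ a ∈ Finset.range K, (K : ℚ) ^ 2 * (1 / ((a : ℚ) + 1) ^ 2) := by
      apply Finset.sum_le_sum
      intro a _
      have h3 : max 1 (a + 1) = a + 1 := by omega
      rw [h3]
      have h4 : ((K / (a + 1) : ℕ) : ℚ) ≤ (K : ℚ) / ((a : ℚ) + 1) := by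
        have := @Nat.cast_div_le ℚ _ _ _ K (a + 1)
        push_cast at this
        exact this
      calc ((K / (a + 1) : ℕ) : ℚ) ^ 2 ≤ ((K : ℚ) / ((a : ℚ) + 1)) ^ 2 :=
            pow_le_pow_left₀ (Nat.cast_nonneg _) h4 2
        _ = (K : ℚ) ^ 2 * (1 / ((a : ℚ) + 1) ^ 2) := by
            rw [div_pow]; ring
    have h5 : ∑ a ∈ Finset.range K, (1 : ℚ) / ((a : ℚ) + 1) ^ 2 ≤ 2 := by
      refine (Finset.sum_le_sum_of_subset_of_nonneg (Finset.range_mono (Nat.le_succ K)) ?_).trans
        ((sum_inv_sq K).trans ?_)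
      · intro a _ _
        positivity
      · have : (0 : ℚ) ≤ 1 / ((K : ℚ) + 1) := by positivity
        linarith
    rw [← Finset.mul_sum] at h2
    have h6 : (K : ℚ) ^ 2 * ∑ a ∈ Finset.range K, (1 : ℚ) / ((a : ℚ) + 1) ^ 2 ≤
        (K : ℚ) ^ 2 * 2 := mul_le_mul_of_nonneg_left h5 (by positivity)
    linarith
  exact_mod_cast h1

theorem cnt : CntStmt := by
  intro n
  induction n with
  | zero =>
    intro K
    refine ⟨Set.toFinite _, ?_⟩
    rcases Nat.eq_zero_or_pos K with h | h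
    · subst h
      have e : {c : Fin 0 → ℕ | ∏ i, max 1 (c i) ≤ 0} = ∅ := by
        rw [Set.eq_empty_iff_forall_notMem]
        intro c hc
        simp at hc
      rw [e, Set.ncard_empty]
      exact Nat.zero_le _
    · have h1 : {c : Fin 0 → ℕ | ∏ i, max 1 (c i) ≤ K}.ncard ≤ 1 := by
        rw [Set.ncard_le_one]
        intro a _ b _
        exact Subsingleton.elim a b
      refine h1.trans ?_
      rw [pow_zero, mul_one]
      exact Nat.one_le_pow _ _ h
  | succ n ih =>
    intro K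
    classical
    set F : Finset (Fin (n + 1) → ℕ) := (Finset.range (K + 1)).biUnion
      (fun a => ((ih (K / max 1 a)).1.toFinset).image (fun c => (Fin.cons a c : Fin (n + 1) → ℕ)))
      with hF
    have hsub : {c : Fin (n + 1) → ℕ | ∏ i, max 1 (c i) ≤ K} ⊆ (F : Set (Fin (n + 1) → ℕ)) := by
      intro c hc
      rw [Set.mem_setOf_eq, Fin.prod_univ_succ] at hc
      have hpos : 1 ≤ ∏ i : Fin n, max 1 (c i.succ) := by
        apply Finset.one_le_prod'
        intro i _
        exact le_max_left _ _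
      rw [Finset.mem_coe, hF, Finset.mem_biUnion]
      refine ⟨c 0, ?_, ?_⟩
      · rw [Finset.mem_range]
        have h1 : max 1 (c 0) * 1 ≤ K := (Nat.mul_le_mul_left _ hpos).trans hc
        have h2 : c 0 ≤ max 1 (c 0) := le_max_right _ _
        omega
      · rw [Finset.mem_image]
        refine ⟨fun i => c i.succ, ?_, ?_⟩
        · rw [Set.Finite.mem_toFinset, Set.mem_setOf_eq]
          rw [Nat.le_div_iff_mul_le (by have := le_max_left 1 (c 0); omega), Nat.mul_comm]
          exact hc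
        · exact Fin.cons_self_tail c
    refine ⟨(Finset.finite_toSet F).subset hsub, ?_⟩
    refine (Set.ncard_le_ncard hsub (Finset.finite_toSet F)).trans ?_
    rw [Set.ncard_coe_finset, hF]
    refine (Finset.card_biUnion_le).trans ?_
    calc ∑ a ∈ Finset.range (K + 1), (((ih (K / max 1 a)).1.toFinset).image
          (fun c => (Fin.cons a c : Fin (n + 1) → ℕ))).card
        ≤ ∑ a ∈ Finset.range (K + 1), (K / max 1 a) ^ 2 * 3 ^ n := by
          apply Finset.sum_le_sum
          intro a _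
          refine Finset.card_image_le.trans ?_
          rw [← Set.ncard_eq_toFinset_card _ (ih (K / max 1 a)).1]
          exact (ih (K / max 1 a)).2
      _ = (∑ a ∈ Finset.range (K + 1), (K / max 1 a) ^ 2) * 3 ^ n := by
          rw [Finset.sum_mul]
      _ ≤ (3 * K ^ 2) * 3 ^ n := Nat.mul_le_mul_right _ (sum_div K)
      _ = K ^ 2 * 3 ^ (n + 1) := by ring

end Pool.Agent.CPT.H97
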